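import Pool.Agent.R544.ES.Mem

/-!
# Recognising graphs in which given edge sequences are paths is NP-complete

Reduction from monotone not-all-equal 3SAT.  All elements that represent truth values share an end
with one base edge; which end it is, is the truth value.  A sequence of length four with two private
elements in the middle makes two elements disjoint, so of different truth values.  For every clause
an extra element meets the base edge and four elements: this is possible iff these are not attached
to the two ends of the base edge two by two.
-/

namespace Pool.Agent.Results.MP_a6fa5c_lc.EdgeSequencesNPC

open Pool.Agent.NPC Pool.Agent.R544.ES

/-- Deciding whether an instance `(E; S_1, …, S_m)` has a realisation is `NP`-complete. -/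
theorem result : InNPP Realisable ∧ NPHardP Realisable :=
  ⟨inNPP, HardI.toNPHardP hardPr_ES.toHardI⟩

end Pool.Agent.Results.MP_a6fa5c_lc.EdgeSequencesNPC
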